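import Pool.Agent.R629.FreeCent

set_option autoImplicit false

/-!
Frobenius partitions of infinite groups: none of the three properties (uniqueness, isomorphic
complements, splitting) holds in general, even when the normal member `Γ₁` is nontrivial.

* Uniqueness and splitting fail in the free group of rank two: for every homomorphism `χ` from a
  free group to a torsion-free group, the kernel of `χ` together with the centralizers of the
  elements outside the kernel is a Frobenius partition.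
* Isomorphy of the complements fails in the crystallographic group `ℤ[i] ⋊ ⟨i⟩` of the plane: the
  nontrivial point stabilizers are cyclic of order `4` or `2`.
-/

namespace Pool.Agent.Results.MP_c23b5e_al.NoneHolds

open Pool.Agent.R629

/-- `{N} ∪ 𝒜` is a nontrivial Frobenius partition of `Γ`. -/
structure IsFrobeniusPartition {Γ : Type} [Group Γ] (N : Subgroup Γ) (𝒜 : Set (Subgroup Γ)) :
    Prop where
  /-- `N` is normal. -/
  normal : N.Normal
  /-- Every nontrivial element lies in exactly one member of `{N} ∪ 𝒜`. -/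
  partition : ∀ g : Γ, g ≠ 1 → ∃! H : Subgroup Γ, (H = N ∨ H ∈ 𝒜) ∧ g ∈ H
  /-- The members of `𝒜` are malnormal: `γ⁻¹ A γ ∩ A = 1` for `γ ∉ A`. -/
  malnormal : ∀ A ∈ 𝒜, ∀ γ : Γ, γ ∉ A → A.map (MulAut.conj γ⁻¹).toMonoidHom ⊓ A = ⊥
  /-- Every conjugate `γ⁻¹ A γ` of a member of `𝒜` is in `𝒜`. -/
  conj : ∀ A ∈ 𝒜, ∀ γ : Γ, A.map (MulAut.conj γ⁻¹).toMonoidHom ∈ 𝒜
  /-- The partition contains at least two nontrivial subgroups. -/
  nontrivial : ∃ H K : Subgroup Γ, (H = N ∨ H ∈ 𝒜) ∧ (K = N ∨ K ∈ 𝒜) ∧ H ≠ K ∧ H ≠ ⊥ ∧ K ≠ ⊥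

/-! ### Free groups -/

section Free

variable {F : Type} [Group F] [IsFreeGroup F]

/-- The centralizers of the elements outside `N`. -/
def cents (N : Subgroup F) : Set (Subgroup F) := {A | ∃ g, g ∉ N ∧ A = Subgroup.centralizer {g}}

omit [IsFreeGroup F] in
lemma mem_cent {g h : F} : h ∈ Subgroup.centralizer {g} ↔ h * g = g * h :=
  Subgroup.mem_centralizer_singleton_iff

lemma frobenius_of_hom {M : Type} [Group M]
    (hM : ∀ (m : M) (k : ℤ), k ≠ 0 → m ^ k = 1 → m = 1) (χ : F →* M) (g₀ h₀ : F)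
    (hg₀ : χ g₀ ≠ 1) (hh₀ : χ h₀ = 1) (hh₀' : h₀ ≠ 1) :
    IsFrobeniusPartition χ.ker (cents χ.ker) := by
  have ne1 : ∀ {g : F}, g ∉ χ.ker → g ≠ 1 := by
    rintro g hg rfl
    exact hg (Subgroup.one_mem _)
  have hdisj : ∀ {g h : F}, g ∉ χ.ker → h ≠ 1 → h ∈ Subgroup.centralizer {g} → h ∉ χ.ker := by
    intro g h hg hh hc hk
    apply hg
    rw [MonoidHom.mem_ker] at hk ⊢
    exact FreeCent.hom_eq_one hM χ hh (mem_cent.mp hc) hk
  have hcent : ∀ {g h : F}, g ≠ 1 → h ≠ 1 → h ∈ Subgroup.centralizer {g} →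
      Subgroup.centralizer {g} = Subgroup.centralizer {h} := by
    intro g h hg hh hc
    rw [mem_cent] at hc
    ext x
    rw [mem_cent, mem_cent]
    constructor
    · intro hx
      exact FreeCent.comm_trans hg hx hc.symm
    · intro hx
      exact FreeCent.comm_trans hh hx hc
  refine ⟨inferInstance, ?_, ?_, ?_, ?_⟩
  · intro g hg
    by_cases hk : g ∈ χ.ker
    · refine ⟨χ.ker, ⟨Or.inl rfl, hk⟩, ?_⟩
      rintro H ⟨rfl | ⟨h, hh, rfl⟩, hmem⟩
      · rfl
      · exact absurd hk (hdisj hh hg hmem)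
    · refine ⟨Subgroup.centralizer {g}, ⟨Or.inr ⟨g, hk, rfl⟩, mem_cent.mpr rfl⟩, ?_⟩
      rintro H ⟨rfl | ⟨h, hh, rfl⟩, hmem⟩
      · exact absurd hmem hk
      · exact hcent (ne1 hh) hg hmem
  · rintro A ⟨g, hg, rfl⟩ γ hγ
    rw [eq_bot_iff]
    rintro y ⟨⟨x, hx, rfl⟩, hy⟩
    rw [Subgroup.mem_bot]
    by_contra hne
    apply hγ
    have hx1 : x ≠ 1 := by
      rintro rfl
      exact hne (map_one _)
    have hy' : (γ⁻¹ * x * γ) * g = g * (γ⁻¹ * x * γ) := by
      have := mem_cent.mp hy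
      simpa [MulAut.conj_apply] using this
    exact mem_cent.mpr (FreeCent.malnormal (ne1 hg) hx1 (mem_cent.mp hx) hy')
  · rintro A ⟨g, hg, rfl⟩ γ
    refine ⟨γ⁻¹ * g * γ, ?_, ?_⟩
    · intro h
      apply hg
      rw [MonoidHom.mem_ker] at h ⊢
      have : χ g = χ γ * χ (γ⁻¹ * g * γ) * (χ γ)⁻¹ := by
        rw [← map_mul, ← map_inv, ← map_mul]; congr 1; group
      rw [this, h]; simp
    · ext x
      rw [mem_cent]
      constructor
      · rintro ⟨y, hy, rfl⟩
        have hy' : y * g = g * y := mem_cent.mp hy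
        change (γ⁻¹ * y * γ⁻¹⁻¹) * (γ⁻¹ * g * γ) = (γ⁻¹ * g * γ) * (γ⁻¹ * y * γ⁻¹⁻¹)
        calc (γ⁻¹ * y * γ⁻¹⁻¹) * (γ⁻¹ * g * γ) = γ⁻¹ * (y * g) * γ := by group
          _ = (γ⁻¹ * g * γ) * (γ⁻¹ * y * γ⁻¹⁻¹) := by rw [hy']; group
      · intro hx
        refine ⟨γ * x * γ⁻¹, mem_cent.mpr ?_, ?_⟩
        · calc (γ * x * γ⁻¹) * g = γ * (x * (γ⁻¹ * g * γ)) * γ⁻¹ := by group
            _ = g * (γ * x * γ⁻¹) := by rw [hx]; group
        · change γ⁻¹ * (γ * x * γ⁻¹) * γ⁻¹⁻¹ = x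
          group
  · refine ⟨χ.ker, Subgroup.centralizer {g₀}, Or.inl rfl,
      Or.inr ⟨g₀, hg₀, rfl⟩, ?_, ?_, ?_⟩
    · intro h
      have h1 : g₀ ∈ Subgroup.centralizer {g₀} := mem_cent.mpr rfl
      rw [← h] at h1
      exact hg₀ h1
    · intro h
      have h1 : h₀ ∈ χ.ker := hh₀
      rw [h] at h1
      exact hh₀' h1
    · intro h
      have h1 : g₀ ∈ Subgroup.centralizer {g₀} := mem_cent.mpr rfl
      rw [h] at h1
      rw [Subgroup.mem_bot.mp h1] at hg₀
      exact hg₀ (map_one _)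

omit [IsFreeGroup F] in
lemma bot_notMem_cents (N : Subgroup F) : ⊥ ∉ cents N := by
  rintro ⟨g, hg, h⟩
  have h1 : g ∈ Subgroup.centralizer {g} := mem_cent.mpr rfl
  rw [← h, Subgroup.mem_bot] at h1
  rw [h1] at hg
  exact hg (Subgroup.one_mem _)

end Free

/-- The free group of rank two. -/
abbrev F₂ : Type := FreeGroup Bool

/-- The homomorphism to `ℤ` that counts the generator `b`. -/
def cnt (b : Bool) : F₂ →* Multiplicative ℤ :=
  FreeGroup.lift fun x => if x = b then Multiplicative.ofAdd 1 else 1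

/-- The abelianization of the free group of rank two. -/
def ab : F₂ →* Multiplicative (ℤ × ℤ) :=
  FreeGroup.lift fun x => if x = true then Multiplicative.ofAdd (1, 0) else Multiplicative.ofAdd (0, 1)

lemma tf_int (m : Multiplicative ℤ) (k : ℤ) (hk : k ≠ 0) (h : m ^ k = 1) : m = 1 := by
  have h1 : k • Multiplicative.toAdd m = 0 := h
  have h2 : k * Multiplicative.toAdd m = 0 := by simpa using h1
  rcases mul_eq_zero.mp h2 with h3 | h3
  · exact absurd h3 hk
  · exact h3

lemma tf_int2 (m : Multiplicative (ℤ × ℤ)) (k : ℤ) (hk : k ≠ 0) (h : m ^ k = 1) : m = 1 := by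
  have h1 : k • Multiplicative.toAdd m = 0 := h
  have h2 : k * (Multiplicative.toAdd m).1 = 0 := by simpa using congrArg Prod.fst h1
  have h3 : k * (Multiplicative.toAdd m).2 = 0 := by simpa using congrArg Prod.snd h1
  have h4 : (Multiplicative.toAdd m).1 = 0 := (mul_eq_zero.mp h2).resolve_left hk
  have h5 : (Multiplicative.toAdd m).2 = 0 := (mul_eq_zero.mp h3).resolve_left hk
  have : Multiplicative.toAdd m = 0 := Prod.ext h4 h5
  exact this

lemma cnt_self (b : Bool) : cnt b (FreeGroup.of b) = Multiplicative.ofAdd 1 := by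
  simp [cnt]

lemma cnt_other (b : Bool) : cnt b (FreeGroup.of !b) = 1 := by
  simp [cnt]

lemma of_ne_one (b : Bool) : (FreeGroup.of b : F₂) ≠ 1 := FreeGroup.of_ne_one b

lemma ofAdd_one_ne : (Multiplicative.ofAdd (1 : ℤ)) ≠ 1 := by
  intro h
  have : (1 : ℤ) = 0 := h
  exact one_ne_zero this

lemma cnt_partition (b : Bool) : IsFrobeniusPartition (cnt b).ker (cents (cnt b).ker) :=
  frobenius_of_hom tf_int (cnt b) (FreeGroup.of b) (FreeGroup.of !b)
    (by rw [cnt_self]; exact ofAdd_one_ne) (cnt_other b) (of_ne_one _)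

lemma cnt_ker_ne_bot (b : Bool) : (cnt b).ker ≠ ⊥ := by
  intro h
  have h1 : (FreeGroup.of !b : F₂) ∈ (cnt b).ker := cnt_other b
  rw [h, Subgroup.mem_bot] at h1
  exact of_ne_one _ h1

lemma cnt_ker_ne : (cnt true).ker ≠ (cnt false).ker := by
  intro h
  have h1 : (FreeGroup.of false : F₂) ∈ (cnt true).ker := cnt_other true
  rw [h, MonoidHom.mem_ker, cnt_self] at h1
  exact ofAdd_one_ne h1

lemma infinite_F₂ : Infinite F₂ := by
  have : Function.Surjective (cnt true) := by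
    intro m
    refine ⟨(FreeGroup.of true) ^ (Multiplicative.toAdd m), ?_⟩
    rw [map_zpow, cnt_self]
    change Multiplicative.ofAdd ((Multiplicative.toAdd m) • (1 : ℤ)) = m
    simp
  exact Infinite.of_surjective _ this

lemma ab_true : ab (FreeGroup.of true) = Multiplicative.ofAdd (1, 0) := by simp [ab]

lemma ab_false : ab (FreeGroup.of false) = Multiplicative.ofAdd (0, 1) := by simp [ab]

lemma comm_mem_ker : (FreeGroup.of true * FreeGroup.of false * (FreeGroup.of true)⁻¹ *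
    (FreeGroup.of false)⁻¹ : F₂) ∈ ab.ker := by
  rw [MonoidHom.mem_ker, map_mul, map_mul, map_mul, map_inv, map_inv]
  rw [mul_comm (ab (FreeGroup.of true)) (ab (FreeGroup.of false))]
  simp

lemma comm_ne_one : (FreeGroup.of true * FreeGroup.of false * (FreeGroup.of true)⁻¹ *
    (FreeGroup.of false)⁻¹ : F₂) ≠ 1 := by
  decide

lemma ab_partition : IsFrobeniusPartition ab.ker (cents ab.ker) :=
  frobenius_of_hom tf_int2 ab (FreeGroup.of true) _ (by
    rw [ab_true]
    intro h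
    have h1 : ((1, 0) : ℤ × ℤ) = 0 := h
    exact one_ne_zero (congrArg Prod.fst h1)) comm_mem_ker comm_ne_one

lemma ab_ker_ne_bot : ab.ker ≠ ⊥ := by
  intro h
  have h1 := comm_mem_ker
  rw [h, Subgroup.mem_bot] at h1
  exact comm_ne_one h1

lemma ab_not_split (A : Subgroup F₂) (hA : A ∈ cents ab.ker) : ab.ker ⊔ A ≠ ⊤ := by
  obtain ⟨g, hg, rfl⟩ := hA
  intro htop
  have hg1 : g ≠ 1 := by
    rintro rfl
    exact hg (Subgroup.one_mem _)
  obtain ⟨r, -, hr⟩ := FreeCent.exists_root hg1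
  have key : ∀ x : F₂, ∃ k : ℤ, ab x = (ab r) ^ k := by
    intro x
    have hx : x ∈ ab.ker ⊔ Subgroup.centralizer {g} := by rw [htop]; trivial
    obtain ⟨y, hy, z, hz, rfl⟩ := Subgroup.mem_sup_of_normal_left.mp hx
    obtain ⟨k, hk⟩ := hr z (mem_cent.mp hz)
    refine ⟨k, ?_⟩
    rw [map_mul, MonoidHom.mem_ker.mp hy, one_mul, hk, map_zpow]
  obtain ⟨k, hk⟩ := key (FreeGroup.of true)
  obtain ⟨l, hl⟩ := key (FreeGroup.of false)
  rw [ab_true] at hk
  rw [ab_false] at hl
  set p := Multiplicative.toAdd (ab r) with hp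
  have hk' : ((1, 0) : ℤ × ℤ) = k • p := hk
  have hl' : ((0, 1) : ℤ × ℤ) = l • p := hl
  have h1 : (1 : ℤ) = k * p.1 := by simpa using congrArg Prod.fst hk'
  have h2 : (0 : ℤ) = k * p.2 := by simpa using congrArg Prod.snd hk'
  have h3 : (1 : ℤ) = l * p.2 := by simpa using congrArg Prod.snd hl'
  have hk0 : k ≠ 0 := by rintro rfl; simp at h1
  have hp2 : p.2 = 0 := (mul_eq_zero.mp h2.symm).resolve_left hk0
  rw [hp2] at h3
  simp at h3

/-! ### The crystallographic group `ℤ[i] ⋊ ⟨i⟩` -/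

/-- The group of the maps `x ↦ u x + b` of the complex plane with `u ∈ {1, i, -1, -i}` and
`b ∈ ℤ[i]`. -/
def P4 : Subgroup (Equiv.Perm ℂ) where
  carrier := {g | ∃ (u : GaussianIntˣ) (b : GaussianInt), ∀ x : ℂ,
    g x = GaussianInt.toComplex u * x + GaussianInt.toComplex b}
  mul_mem' := by
    rintro g h ⟨u, b, hg⟩ ⟨v, c, hh⟩
    refine ⟨u * v, u * c + b, fun x => ?_⟩
    rw [Equiv.Perm.mul_apply, hg, hh]
    simp only [Units.val_mul, map_mul, map_add]
    ring
  one_mem' := ⟨1, 0, fun x => by simp⟩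
  inv_mem' := by
    rintro g ⟨u, b, hg⟩
    refine ⟨u⁻¹, -(((u⁻¹ : GaussianIntˣ) : GaussianInt) * b), fun x => ?_⟩
    rw [Equiv.Perm.inv_eq_iff_eq, hg]
    have h1 : GaussianInt.toComplex (u : GaussianInt) *
        GaussianInt.toComplex ((u⁻¹ : GaussianIntˣ) : GaussianInt) = 1 := by
      rw [← map_mul]; simp
    rw [map_neg, map_mul]
    linear_combination (x - GaussianInt.toComplex b) * (-h1)

/-- The translations in `P4`. -/
def trans : Subgroup P4 where
  carrier := {g | ∃ b : ℂ, ∀ x : ℂ, (g : Equiv.Perm ℂ) x = x + b}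
  mul_mem' := by
    rintro g h ⟨b, hg⟩ ⟨c, hh⟩
    refine ⟨c + b, fun x => ?_⟩
    rw [Subgroup.coe_mul, Equiv.Perm.mul_apply, hg, hh]; ring
  one_mem' := ⟨0, fun x => by simp⟩
  inv_mem' := by
    rintro g ⟨b, hg⟩
    refine ⟨-b, fun x => ?_⟩
    rw [Subgroup.coe_inv, Equiv.Perm.inv_eq_iff_eq, hg]; ring

/-- The stabilizer in `P4` of the point `P`. -/
def stab (P : ℂ) : Subgroup P4 where
  carrier := {g | (g : Equiv.Perm ℂ) P = P}
  mul_mem' := by
    intro g h (hg : (g : Equiv.Perm ℂ) P = P) (hh : (h : Equiv.Perm ℂ) P = P)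
    change ((g * h : P4) : Equiv.Perm ℂ) P = P
    rw [Subgroup.coe_mul, Equiv.Perm.mul_apply, hh, hg]
  one_mem' := rfl
  inv_mem' := by
    intro g (hg : (g : Equiv.Perm ℂ) P = P)
    change ((g⁻¹ : P4) : Equiv.Perm ℂ) P = P
    rw [Subgroup.coe_inv, Equiv.Perm.inv_eq_iff_eq, hg]

lemma mem_stab {P : ℂ} {g : P4} : g ∈ stab P ↔ (g : Equiv.Perm ℂ) P = P := Iff.rfl

/-- The nontrivial point stabilizers. -/
def stabs : Set (Subgroup P4) := {A | A ≠ ⊥ ∧ ∃ P, A = stab P}

lemma affine (g : P4) : ∃ u b : ℂ, ∀ x, (g : Equiv.Perm ℂ) x = u * x + b := by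
  obtain ⟨g, u, b, h⟩ := g
  exact ⟨_, _, h⟩

lemma eq_one_of_two_fixed {g : P4} {P Q : ℂ} (hPQ : P ≠ Q) (hP : (g : Equiv.Perm ℂ) P = P)
    (hQ : (g : Equiv.Perm ℂ) Q = Q) : g = 1 := by
  obtain ⟨u, b, h⟩ := affine g
  rw [h] at hP hQ
  have hne : P - Q ≠ 0 := sub_ne_zero.mpr hPQ
  have hu : u = 1 := by
    have : (u - 1) * (P - Q) = 0 := by linear_combination hP - hQ
    rcases mul_eq_zero.mp this with h1 | h1
    · exact sub_eq_zero.mp h1
    · exact absurd h1 hne
  have hb : b = 0 := by rw [hu] at hP; linear_combination hP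
  ext x
  rw [h, hu, hb]; simp

lemma mem_conj_stab (P : ℂ) (γ g : P4) :
    g ∈ (stab P).map (MulAut.conj γ⁻¹).toMonoidHom ↔ g ∈ stab ((γ : Equiv.Perm ℂ).symm P) := by
  rw [mem_stab]
  constructor
  · rintro ⟨y, hy, rfl⟩
    have hy' : (y : Equiv.Perm ℂ) P = P := hy
    change ((γ⁻¹ * y * γ⁻¹⁻¹ : P4) : Equiv.Perm ℂ) ((γ : Equiv.Perm ℂ).symm P) = _
    rw [inv_inv, Subgroup.coe_mul, Subgroup.coe_mul, Subgroup.coe_inv, Equiv.Perm.mul_apply,
      Equiv.Perm.mul_apply, Equiv.apply_symm_apply, hy']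
    rfl
  · intro h
    refine ⟨γ * g * γ⁻¹, ?_, ?_⟩
    · change ((γ * g * γ⁻¹ : P4) : Equiv.Perm ℂ) P = P
      rw [Subgroup.coe_mul, Subgroup.coe_mul, Subgroup.coe_inv, Equiv.Perm.mul_apply,
        Equiv.Perm.mul_apply]
      change (γ : Equiv.Perm ℂ) ((g : Equiv.Perm ℂ) ((γ : Equiv.Perm ℂ).symm P)) = P
      rw [h, Equiv.apply_symm_apply]
    · change γ⁻¹ * (γ * g * γ⁻¹) * γ⁻¹⁻¹ = g
      group

lemma conj_stab (P : ℂ) (γ : P4) :
    (stab P).map (MulAut.conj γ⁻¹).toMonoidHom = stab ((γ : Equiv.Perm ℂ).symm P) := by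
  ext g
  exact mem_conj_stab P γ g

/-- An element of `P4` with linear part `u` and translation part `b`. -/
def mk (u : GaussianIntˣ) (b : GaussianInt) : P4 :=
  ⟨{ toFun := fun x => GaussianInt.toComplex u * x + GaussianInt.toComplex b
     invFun := fun x => GaussianInt.toComplex ((u⁻¹ : GaussianIntˣ) : GaussianInt) *
      (x - GaussianInt.toComplex b)
     left_inv := by
      intro x
      have h1 : GaussianInt.toComplex (u : GaussianInt) *
          GaussianInt.toComplex ((u⁻¹ : GaussianIntˣ) : GaussianInt) = 1 := by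
        rw [← map_mul]; simp
      linear_combination x * h1
     right_inv := by
      intro x
      have h1 : GaussianInt.toComplex (u : GaussianInt) *
          GaussianInt.toComplex ((u⁻¹ : GaussianIntˣ) : GaussianInt) = 1 := by
        rw [← map_mul]; simp
      linear_combination (x - GaussianInt.toComplex b) * h1 },
    u, b, fun _ => rfl⟩

lemma mk_apply (u : GaussianIntˣ) (b : GaussianInt) (x : ℂ) :
    (mk u b : Equiv.Perm ℂ) x = GaussianInt.toComplex u * x + GaussianInt.toComplex b := rfl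

/-- The unit `i` of `ℤ[i]`. -/
def unitI : GaussianIntˣ := ⟨⟨0, 1⟩, ⟨0, -1⟩, by decide, by decide⟩

lemma toComplex_unitI : GaussianInt.toComplex (unitI : GaussianInt) = Complex.I := by
  rw [GaussianInt.toComplex_def]
  simp [unitI]

lemma rot_sq_ne_one : (mk unitI 0) * (mk unitI 0) ≠ 1 := by
  intro h
  have h1 : ((mk unitI 0 * mk unitI 0 : P4) : Equiv.Perm ℂ) 1 = 1 := by rw [h]; rfl
  rw [Subgroup.coe_mul, Equiv.Perm.mul_apply, mk_apply, mk_apply, toComplex_unitI] at h1
  simp at h1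
  have h2 := congrArg Complex.re h1
  norm_num at h2

lemma rot_mem_stab : mk unitI 0 ∈ stab 0 := by
  rw [mem_stab, mk_apply]; simp

lemma half_turn_ne_one : mk (-1) 1 ≠ 1 := by
  intro h
  have h1 : ((mk (-1) 1 : P4) : Equiv.Perm ℂ) 0 = 0 := by rw [h]; rfl
  rw [mk_apply] at h1
  simp at h1

lemma half_turn_mem_stab : mk (-1) 1 ∈ stab (1 / 2) := by
  rw [mem_stab, mk_apply]
  simp only [Units.val_neg, Units.val_one, map_neg, map_one]
  ring

/-- Every element of the stabilizer of `1/2` is an involution. -/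
lemma sq_eq_one_of_mem_stab_half {g : P4} (hg : g ∈ stab (1 / 2)) : g * g = 1 := by
  obtain ⟨u, b, h⟩ := g.2
  have h1 : GaussianInt.toComplex u * (1 / 2) + GaussianInt.toComplex b = 1 / 2 := by
    rw [← h]; exact hg
  have h2 : (2 : GaussianInt) * b = 1 - u := by
    have h3 : GaussianInt.toComplex (2 * b) = GaussianInt.toComplex (1 - u) := by
      rw [map_mul, map_sub, map_one]
      have : GaussianInt.toComplex (2 : GaussianInt) = 2 := by
        rw [map_ofNat]
      rw [this]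
      linear_combination 2 * h1
    exact GaussianInt.toComplex_inj.mp h3
  have hnorm : (u : GaussianInt).re ^ 2 + (u : GaussianInt).im ^ 2 = 1 := by
    have h4 : Zsqrtd.norm (u : GaussianInt) = 1 := by
      have h5 := (Zsqrtd.isUnit_iff_norm_isUnit (u : GaussianInt)).mp u.isUnit
      have h6 := Int.isUnit_iff.mp h5
      have h7 : 0 ≤ Zsqrtd.norm (u : GaussianInt) := GaussianInt.norm_nonneg _
      omega
    rw [Zsqrtd.norm_def] at h4
    linarith [h4]
  have him : 2 * b.im = - (u : GaussianInt).im := by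
    have := congrArg Zsqrtd.im h2
    simpa using this
  have hu_im : (u : GaussianInt).im = 0 := by
    have h8 : (u : GaussianInt).im ^ 2 ≤ 1 := by nlinarith [sq_nonneg (u : GaussianInt).re]
    have h9 : -1 ≤ (u : GaussianInt).im := by nlinarith
    have h10 : (u : GaussianInt).im ≤ 1 := by nlinarith
    omega
  have hu2 : (u : GaussianInt) * u = 1 := by
    have h11 : (u : GaussianInt).re ^ 2 = 1 := by rw [hu_im] at hnorm; linarith
    ext
    · simp [hu_im]; linarith [h11]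
    · simp [hu_im]
  have hub : ((u : GaussianInt) + 1) * b = 0 := by
    have h12 : (2 : GaussianInt) * (((u : GaussianInt) + 1) * b) = 0 := by
      calc (2 : GaussianInt) * (((u : GaussianInt) + 1) * b)
          = ((u : GaussianInt) + 1) * (2 * b) := by ring
        _ = ((u : GaussianInt) + 1) * (1 - u) := by rw [h2]
        _ = 1 - u * u := by ring
        _ = 0 := by rw [hu2]; ring
    rcases mul_eq_zero.mp h12 with h13 | h13
    · exact absurd h13 (by decide)
    · exact h13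
  ext x
  rw [Subgroup.coe_mul, Equiv.Perm.mul_apply, h, h]
  have e1 : GaussianInt.toComplex u * GaussianInt.toComplex u = 1 := by
    rw [← map_mul, hu2, map_one]
  have e2 : (GaussianInt.toComplex u + 1) * GaussianInt.toComplex b = 0 := by
    have := congrArg GaussianInt.toComplex hub
    simpa using this
  simp only [Subgroup.coe_one, Equiv.Perm.coe_one, id_eq]
  linear_combination x * e1 + e2

lemma P4_partition : IsFrobeniusPartition trans stabs := by
  refine ⟨?_, ?_, ?_, ?_, ?_⟩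
  · -- the translations form a normal subgroup
    refine ⟨fun n hn g => ?_⟩
    obtain ⟨c, hc⟩ := hn
    obtain ⟨u, b, h⟩ := affine g
    refine ⟨u * c, fun x => ?_⟩
    rw [Subgroup.coe_mul, Subgroup.coe_mul, Equiv.Perm.mul_apply, Equiv.Perm.mul_apply, hc, h]
    have h1 : (g : Equiv.Perm ℂ) (((g⁻¹ : P4) : Equiv.Perm ℂ) x) = x := by
      rw [← Equiv.Perm.mul_apply, ← Subgroup.coe_mul, mul_inv_cancel]; rfl
    rw [h] at h1
    linear_combination h1
  · intro g hg
    obtain ⟨u, b, h⟩ := affine g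
    by_cases hu : u = 1
    · have hb : b ≠ 0 := by
        rintro rfl
        apply hg
        ext x
        rw [h, hu]; simp
      refine ⟨trans, ⟨Or.inl rfl, ⟨b, fun x => by rw [h, hu, one_mul]⟩⟩, ?_⟩
      rintro H ⟨rfl | ⟨-, P, rfl⟩, hmem⟩
      · rfl
      · exfalso
        rw [mem_stab, h, hu, one_mul] at hmem
        apply hb
        linear_combination hmem
    · have hu' : 1 - u ≠ 0 := sub_ne_zero.mpr (Ne.symm hu)
      have hfix : g ∈ stab (b / (1 - u)) := by
        rw [mem_stab, h]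
        field_simp
        ring
      refine ⟨stab (b / (1 - u)), ⟨Or.inr ⟨?_, _, rfl⟩, hfix⟩, ?_⟩
      · intro hbot
        rw [hbot, Subgroup.mem_bot] at hfix
        exact hg hfix
      · rintro H ⟨rfl | ⟨-, P, rfl⟩, hmem⟩
        · exfalso
          obtain ⟨c, hc⟩ := hmem
          apply hu
          have h0 := h 0
          have h1 := h 1
          rw [hc] at h0 h1
          linear_combination h0 - h1
        · by_cases hP : P = b / (1 - u)
          · rw [hP]
          · exact absurd (eq_one_of_two_fixed hP hmem hfix) hg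
  · rintro A ⟨-, P, rfl⟩ γ hγ
    rw [eq_bot_iff]
    rintro y ⟨hy1, hy2⟩
    rw [Subgroup.mem_bot]
    have hy1' := (mem_conj_stab P γ y).mp hy1
    refine eq_one_of_two_fixed (P := (γ : Equiv.Perm ℂ).symm P) (Q := P) ?_ hy1' hy2
    intro h
    apply hγ
    rw [mem_stab]
    rw [Equiv.symm_apply_eq] at h
    exact h.symm
  · rintro A ⟨hA, P, rfl⟩ γ
    refine ⟨?_, _, conj_stab P γ⟩
    intro h
    apply hA
    rw [Subgroup.map_eq_bot_iff] at h
    have : (MulAut.conj γ⁻¹).toMonoidHom.ker = ⊥ :=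
      (MonoidHom.ker_eq_bot_iff _).mpr (MulAut.conj γ⁻¹).injective
    rw [this] at h
    exact eq_bot_iff.mpr h
  · have h1 : mk 1 1 ∈ trans := ⟨1, fun x => by rw [mk_apply]; simp⟩
    have h2 : mk 1 1 ≠ 1 := by
      intro h
      have h1 : ((mk 1 1 : P4) : Equiv.Perm ℂ) 0 = 0 := by rw [h]; rfl
      rw [mk_apply] at h1
      simp at h1
    have hrot : mk unitI 0 ≠ 1 := by
      intro h
      apply rot_sq_ne_one
      rw [h, one_mul]
    refine ⟨trans, stab 0, Or.inl rfl, Or.inr ⟨?_, 0, rfl⟩, ?_, ?_, ?_⟩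
    · intro h; have := rot_mem_stab; rw [h, Subgroup.mem_bot] at this; exact hrot this
    · intro h
      rw [h, mem_stab, mk_apply] at h1
      simp at h1
    · intro h; rw [h, Subgroup.mem_bot] at h1; exact h2 h1
    · intro h; have := rot_mem_stab; rw [h, Subgroup.mem_bot] at this; exact hrot this

lemma trans_ne_bot : trans ≠ ⊥ := by
  intro h
  have h1 : mk 1 1 ∈ trans := ⟨1, fun x => by rw [mk_apply]; simp⟩
  rw [h, Subgroup.mem_bot] at h1
  have h1 : ((mk 1 1 : P4) : Equiv.Perm ℂ) 0 = 0 := by rw [h1]; rfl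
  rw [mk_apply] at h1
  simp at h1

lemma infinite_P4 : Infinite P4 := by
  refine Infinite.of_injective (fun n : ℤ => mk 1 (n : GaussianInt)) ?_
  intro m n h
  have h1 : ((mk 1 (m : GaussianInt) : P4) : Equiv.Perm ℂ) 0 =
      ((mk 1 (n : GaussianInt) : P4) : Equiv.Perm ℂ) 0 := by
    simp only at h
    rw [h]
  rw [mk_apply, mk_apply] at h1
  simpa using h1

lemma stab_zero_mem : stab 0 ∈ stabs := by
  refine ⟨fun h => ?_, 0, rfl⟩
  have h1 := rot_mem_stab
  rw [h, Subgroup.mem_bot] at h1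
  apply rot_sq_ne_one
  rw [h1, one_mul]

lemma stab_half_mem : stab (1 / 2) ∈ stabs := by
  refine ⟨fun h => ?_, 1 / 2, rfl⟩
  have h1 := half_turn_mem_stab
  rw [h, Subgroup.mem_bot] at h1
  exact half_turn_ne_one h1

lemma not_iso : IsEmpty (stab 0 ≃* stab (1 / 2)) := by
  refine ⟨fun e => ?_⟩
  let ρ : stab 0 := ⟨mk unitI 0, rot_mem_stab⟩
  have h1 : e ρ * e ρ = 1 := by
    ext1
    exact sq_eq_one_of_mem_stab_half (e ρ).2
  rw [← map_mul, map_eq_one_iff e e.injective] at h1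
  exact rot_sq_ne_one (congrArg Subtype.val h1)

/-- None of the three properties holds for all infinite groups with a nontrivial Frobenius
partition, even if the normal member is nontrivial: (i) an infinite group can have nontrivial
Frobenius partitions with different nontrivial normal members; (ii) two members of `𝒜` need not be
isomorphic; (iii) it can happen that `Γ₁ A ≠ Γ` for every `A ∈ 𝒜`. -/
theorem result :
    (∃ (Γ : Type) (_ : Group Γ) (N N' : Subgroup Γ) (𝒜 𝒜' : Set (Subgroup Γ)), Infinite Γ ∧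
      IsFrobeniusPartition N 𝒜 ∧ IsFrobeniusPartition N' 𝒜' ∧ N ≠ ⊥ ∧ N' ≠ ⊥ ∧ ⊥ ∉ 𝒜 ∧ ⊥ ∉ 𝒜' ∧
      N ≠ N' ∧ 𝒜 ≠ 𝒜') ∧
    (∃ (Γ : Type) (_ : Group Γ) (N : Subgroup Γ) (𝒜 : Set (Subgroup Γ)), Infinite Γ ∧
      IsFrobeniusPartition N 𝒜 ∧ N ≠ ⊥ ∧ ⊥ ∉ 𝒜 ∧
      ∃ A ∈ 𝒜, ∃ B ∈ 𝒜, IsEmpty (A ≃* B)) ∧
    (∃ (Γ : Type) (_ : Group Γ) (N : Subgroup Γ) (𝒜 : Set (Subgroup Γ)), Infinite Γ ∧
      IsFrobeniusPartition N 𝒜 ∧ N ≠ ⊥ ∧ ⊥ ∉ 𝒜 ∧ ∀ A ∈ 𝒜, N ⊔ A ≠ ⊤) := by
  refine ⟨⟨F₂, inferInstance, (cnt true).ker, (cnt false).ker, cents (cnt true).ker,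
    cents (cnt false).ker, infinite_F₂, cnt_partition true, cnt_partition false,
    cnt_ker_ne_bot true, cnt_ker_ne_bot false, bot_notMem_cents _, bot_notMem_cents _, cnt_ker_ne,
    ?_⟩,
    ⟨P4, inferInstance, trans, stabs, infinite_P4, P4_partition, trans_ne_bot, fun h => h.1 rfl,
      stab 0, stab_zero_mem, stab (1 / 2), stab_half_mem, not_iso⟩,
    ⟨F₂, inferInstance, ab.ker, cents ab.ker, infinite_F₂, ab_partition, ab_ker_ne_bot,
      bot_notMem_cents _, ab_not_split⟩⟩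
  -- `𝒜 ≠ 𝒜'`
  intro h
  have h1 : (FreeGroup.of true : F₂) ∉ (cnt true).ker := by
    rw [MonoidHom.mem_ker, cnt_self]; exact ofAdd_one_ne
  have h2 : Subgroup.centralizer {(FreeGroup.of true : F₂)} ∈ cents (cnt true).ker := ⟨_, h1, rfl⟩
  rw [h] at h2
  have h3 : (FreeGroup.of true : F₂) ∈ (cnt false).ker := cnt_other false
  have h4 := (cnt_partition false).partition _ (of_ne_one true)
  have h5 := h4.unique ⟨Or.inl rfl, h3⟩ ⟨Or.inr h2, mem_cent.mpr rfl⟩
  have h6 : (FreeGroup.of true * FreeGroup.of false * (FreeGroup.of true)⁻¹ *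
    (FreeGroup.of false)⁻¹ : F₂) ∈ (cnt false).ker := by
    rw [MonoidHom.mem_ker, map_mul, map_mul, map_mul, map_inv, map_inv]
    rw [mul_comm (cnt false (FreeGroup.of true)) (cnt false (FreeGroup.of false))]
    simp
  rw [h5, mem_cent] at h6
  exact absurd h6 (by decide)

end Pool.Agent.Results.MP_c23b5e_al.NoneHolds
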